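import Pool.Agent.H47.MED.Stmts
import Pool.Agent.H85.VIO.KNV

/-!
# MED, module CHT: choice for triples, from the real choice lemma CHR
-/

set_option autoImplicit false

namespace Pool.MED

open Finset Pool.Agent.H98.ABCR Pool.SHA Pool.ABY Pool.ABY.KNY71 Pool.VIO.KNV85

namespace CHT25

/-- the exponent of `q` in the triple -/
noncomputable def ev (v : ℕ × ℕ) (q : ℕ) : ℕ := ∑ s : Fin 3, (coord v s).factorization q

lemma ev_cast (v : ℕ × ℕ) (q : ℕ) : (ev v q : ℝ) = E v q := by
  unfold ev E; push_cast; rfl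

lemma ev_eq (v : ℕ × ℕ) (hv : IsTri v) (q : ℕ) (hq : q.Prime) (s : Fin 3) (h : iv v q = s) :
    ev v q = (coord v s).factorization q := by
  unfold ev
  rw [Finset.sum_eq_single s]
  · intro t _ ht
    rw [fz v hv q hq t (by rw [h]; exact ht.symm)]
  · intro hn; exact absurd (Finset.mem_univ _) hn

lemma iv_mem (v : ℕ × ℕ) (hv : IsTri v) (q : ℕ) (hq : q ∈ (nn v).primeFactors) :
    q ∈ (coord v (iv v q)).primeFactors := by
  have hqp := Nat.prime_of_mem_primeFactors hq
  have h := hq
  rw [pf_nn v hv] at h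
  simp only [mem_union, A] at h
  rcases h with (h | h) | h
  · rw [iv_eq v hv q hqp 0 (Nat.dvd_of_mem_primeFactors h)]; exact h
  · rw [iv_eq v hv q hqp 1 (Nat.dvd_of_mem_primeFactors h)]; exact h
  · rw [iv_eq v hv q hqp 2 (Nat.dvd_of_mem_primeFactors h)]; exact h

lemma fil (v : ℕ × ℕ) (hv : IsTri v) (t : Fin 3) :
    (nn v).primeFactors.filter (fun q => iv v q = t) = (coord v t).primeFactors := by
  ext q
  rw [Finset.mem_filter]
  constructor
  · rintro ⟨h1, h2⟩
    have := iv_mem v hv q h1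
    rwa [h2] at this
  · intro h
    exact ⟨A_sub v hv t h, iv_eq v hv q (Nat.prime_of_mem_primeFactors h) t
      (Nat.dvd_of_mem_primeFactors h)⟩

lemma ev_pos (v : ℕ × ℕ) (hv : IsTri v) (q : ℕ) (hq : q ∈ (nn v).primeFactors) :
    1 ≤ ev v q := by
  have hqp := Nat.prime_of_mem_primeFactors hq
  rw [ev_eq v hv q hqp _ rfl]
  have h := iv_mem v hv q hq
  rw [← Nat.support_factorization, Finsupp.mem_support_iff] at h
  omega

/-- prime factors of a product of prime powers -/
lemma pfp (T : Finset ℕ) (hT : ∀ q ∈ T, q.Prime) (f : ℕ → ℕ) (hf : ∀ q ∈ T, 1 ≤ f q) :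
    (∏ q ∈ T, q ^ f q).primeFactors = T := by
  have h0 : (∏ q ∈ T, q ^ f q) ≠ 0 :=
    Finset.prod_ne_zero_iff.mpr fun q hq => pow_ne_zero _ (hT q hq).ne_zero
  ext p
  rw [Nat.mem_primeFactors]
  constructor
  · rintro ⟨hp, hd, _⟩
    obtain ⟨q, hq, hpq⟩ := (Prime.dvd_finsetProd_iff hp.prime _).mp hd
    have h1 := hp.dvd_of_dvd_pow hpq
    rw [(Nat.prime_dvd_prime_iff_eq hp (hT q hq)).mp h1]
    exact hq
  · intro hp
    refine ⟨hT p hp, ?_, h0⟩
    exact (dvd_pow_self p (by have := hf p hp; omega)).trans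
      (Finset.dvd_prod_of_mem (fun q => q ^ f q) hp)

/-- splitting off the primes of `Y` -/
lemma quot (m : ℕ) (hm : m ≠ 0) (Y : Finset ℕ) (hY : Y ⊆ m.primeFactors) :
    ∃ B : ℕ, m = B * ∏ q ∈ Y, q ^ m.factorization q ∧ B.primeFactors = m.primeFactors \ Y := by
  refine ⟨∏ q ∈ m.primeFactors \ Y, q ^ m.factorization q, ?_, ?_⟩
  · rw [Finset.prod_sdiff hY]
    conv_lhs => rw [← Nat.prod_factorization_pow_eq_self hm]
    rw [Finsupp.prod, Nat.support_factorization]
  · apply pfp
    · intro q hq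
      exact Nat.prime_of_mem_primeFactors (Finset.mem_sdiff.mp hq).1
    · intro q hq
      have h := (Finset.mem_sdiff.mp hq).1
      rw [← Nat.support_factorization, Finsupp.mem_support_iff] at h
      omega

lemma LK_sdiff (K Y : Finset ℕ) (h : Y ⊆ K) : LK (K \ Y) = LK K - LK Y := by
  unfold LK
  rw [← Finset.sum_sdiff h]
  ring

lemma rad_pos (n : ℕ) : (0 : ℝ) < (rad n : ℝ) := by
  have : 0 < rad n := Finset.prod_pos (fun q hq => (Nat.prime_of_mem_primeFactors hq).pos)
  exact_mod_cast this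

lemma le_rp (X : ℝ) (hX : 1 < X) (u t : ℝ) (hu : 0 < u) (h : Real.log u ≤ t * Real.log X) :
    u ≤ X ^ t := by
  rw [← Real.exp_log hu, Real.rpow_def_of_pos (by linarith)]
  apply Real.exp_le_exp.mpr
  linarith

lemma rp_le (X : ℝ) (hX : 1 < X) (u t : ℝ) (hu : 0 < u) (h : t * Real.log X ≤ Real.log u) :
    X ^ t ≤ u := by
  rw [← Real.exp_log hu, Real.rpow_def_of_pos (by linarith)]
  apply Real.exp_le_exp.mpr
  linarith

lemma LK_div (K : Finset ℕ) (X : ℝ) :
    ∑ q ∈ K, Real.log (q : ℝ) / Real.log X = LK K / Real.log X := by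
  unfold LK
  rw [Finset.sum_div]

/-- the sizes -/
lemma siz_eq (v : ℕ × ℕ) (hv : IsTri v) (X : ℝ) (t : Fin 3) :
    siz (nn v).primeFactors (fun q => Real.log (q : ℝ) / Real.log X) (ev v) (iv v) t =
      Real.log (coord v t : ℝ) / Real.log X := by
  unfold siz
  rw [fil v hv t, ← kl_full (coord v t).primeFactors (coord v t) (Finset.Subset.refl _)]
  unfold kl
  rw [Finset.sum_div]
  apply Finset.sum_congr rfl
  intro q hq
  rw [ev_eq v hv q (Nat.prime_of_mem_primeFactors hq) t
    (iv_eq v hv q (Nat.prime_of_mem_primeFactors hq) t (Nat.dvd_of_mem_primeFactors hq))]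
  ring

lemma cst_eq (v : ℕ × ℕ) (hv : IsTri v) (X : ℝ) (t : Fin 3) :
    cst (nn v).primeFactors (fun q => Real.log (q : ℝ) / Real.log X) (iv v) t =
      LK (coord v t).primeFactors / Real.log X := by
  unfold cst
  rw [fil v hv t, LK_div _ X]

lemma prod_pow_log (T : Finset ℕ) (hT : ∀ q ∈ T, q.Prime) (f : ℕ → ℕ) :
    Real.log ((∏ q ∈ T, q ^ f q : ℕ) : ℝ) = ∑ q ∈ T, (f q : ℝ) * Real.log (q : ℝ) := by
  push_cast
  rw [Real.log_prod]
  · apply Finset.sum_congr rfl
    intro q _
    rw [Real.log_pow]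
  · intro q hq
    have := (hT q hq).pos
    positivity

lemma prod_pow_pos (T : Finset ℕ) (hT : ∀ q ∈ T, q.Prime) (f : ℕ → ℕ) :
    (0 : ℝ) < ((∏ q ∈ T, q ^ f q : ℕ) : ℝ) := by
  exact_mod_cast Finset.prod_pos (fun q hq => pow_pos (hT q hq).pos _)

/-- `q ^ 2` divides the coordinate -/
lemma sq_dvd (v : ℕ × ℕ) (hv : IsTri v) (q : ℕ) (hq : q ∈ (nn v).primeFactors) (t : Fin 3)
    (h : iv v q = t) (h2 : 2 ≤ ev v q) : q ^ 2 ∣ coord v t := by
  have hqp := Nat.prime_of_mem_primeFactors hq
  rw [ev_eq v hv q hqp t h] at h2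
  exact (pow_dvd_pow q h2).trans (Nat.ordProj_dvd _ _)

end CHT25

open CHT25 in
theorem cht_thm (hCHR : S_CHR) : S_CHT := by
  intro ε κ0 τ hε hκ0 hτ
  obtain ⟨c1, E0, hc1, hch⟩ := hCHR ε κ0 τ hε hκ0 hτ
  refine ⟨c1 / 2, max 3 (Real.exp (2 / c1)), E0, by positivity, le_max_left _ _, ?_⟩
  intro X v hX hv hRR hh1 hh2
  have hX3 : 3 ≤ X := (le_max_left _ _).trans hX
  have hX1 : 1 < X := by linarith
  have hL : 0 < Real.log X := Real.log_pos hX1
  have hXe : 2 / c1 ≤ Real.log X := by
    rw [Real.le_log_iff_exp_le (by linarith)]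
    exact (le_max_right _ _).trans hX
  have hcL : 2 ≤ c1 * Real.log X := by
    rw [div_le_iff₀ hc1] at hXe; linarith
  have hlog2 : Real.log 2 ≤ 1 := by
    have := Real.log_two_lt_d9; linarith
  have hlog2' : 0 ≤ Real.log 2 := Real.log_nonneg (by norm_num)
  set S : Finset ℕ := (nn v).primeFactors with hS
  have hSp : ∀ q ∈ S, q.Prime := fun q hq => Nat.prime_of_mem_primeFactors hq
  set c : ℕ → ℝ := fun q => Real.log (q : ℝ) / Real.log X with hc
  have hcL' : ∀ q : ℕ, c q * Real.log X = Real.log (q : ℝ) := fun q => by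
    simp only [hc]; field_simp
  have hsumc : ∀ K : Finset ℕ, (∑ q ∈ K, c q) * Real.log X = LK K := fun K => by
    rw [Finset.sum_mul]
    unfold LK
    exact Finset.sum_congr rfl fun q _ => hcL' q
  have hcst : ∀ t, cst S c (iv v) t * Real.log X = LK (coord v t).primeFactors := fun t => by
    have := cst_eq v hv X t
    rw [this]; field_simp
  have hsiz : ∀ t, siz S c (ev v) (iv v) t * Real.log X = Real.log (coord v t : ℝ) := fun t => by
    have := siz_eq v hv X t
    rw [this]; field_simp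
  have hcoord : ∀ t, Real.log (coord v t : ℝ) ≤ hh v := fun t => log_coord_le v hv t
  have hcp : ∀ t, 0 < coord v t := fun t => coord_pos v hv t
  -- the large coordinate
  obtain ⟨b, d, hb2, hd2, hbd, hb⟩ : ∃ b d : Fin 3, (2 : Fin 3) ≠ b ∧ (2 : Fin 3) ≠ d ∧ b ≠ d ∧
      hh v - Real.log 2 ≤ Real.log (coord v b : ℝ) := by
    rcases le_total v.1 v.2 with h | h
    · refine ⟨1, 0, by decide, by decide, by decide, ?_⟩
      have e1 : coord v 1 = v.2 := rfl
      have := log_le_of v.2 v.1 hv.2.1 hv.1 h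
      rw [e1]
      have hhd : hh v = Real.log ((v.2 + v.1 : ℕ) : ℝ) := by
        rw [add_comm]; rfl
      rw [← hhd] at this
      linarith
    · refine ⟨0, 1, by decide, by decide, by decide, ?_⟩
      have e0 : coord v 0 = v.1 := rfl
      have := log_le_of v.1 v.2 hv.1 hv.2.1 h
      rw [e0]
      have hhd : hh v = Real.log ((v.1 + v.2 : ℕ) : ℝ) := rfl
      rw [← hhd] at this
      linarith
  have hcpos : ∀ q ∈ S, 0 < c q := by
    intro q hq
    have : 1 < (q : ℝ) := by exact_mod_cast (hSp q hq).one_lt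
    exact div_pos (Real.log_pos this) hL
  have key := hch S c (ev v) (iv v) 2 b d (hh v / Real.log X) hb2 hd2 hbd
    (fun q hq => ⟨hcpos q hq, ev_pos v hv q hq⟩)
    (by
      have h1 : Real.log (RR v : ℝ) = LK S := log_rad (nn v)
      have h2 : Real.log (RR v : ℝ) ≤ Real.log X :=
        Real.log_le_log (rad_pos (nn v)) hRR
      have h3 := hsumc S
      rw [← h1] at h3
      have h4 : (∑ q ∈ S, c q) * Real.log X ≤ 1 * Real.log X := by linarith
      exact le_of_mul_le_mul_right h4 hL)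
    (by rw [le_div_iff₀ hL]; exact hh1)
    (by rw [div_le_iff₀ hL]; exact hh2)
    (by
      apply le_of_mul_le_mul_right _ hL
      rw [hsiz 2, sub_mul, div_mul_cancel₀ _ hL.ne']
      have e2 : Real.log (coord v 2 : ℝ) = hh v := rfl
      rw [e2]; nlinarith)
    (by
      apply le_of_mul_le_mul_right _ hL
      rw [hsiz b, sub_mul, div_mul_cancel₀ _ hL.ne']
      linarith)
    (by
      apply le_of_mul_le_mul_right _ hL
      rw [hsiz 2, div_mul_cancel₀ _ hL.ne']
      exact hcoord 2)
    (by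
      apply le_of_mul_le_mul_right _ hL
      rw [hsiz b, div_mul_cancel₀ _ hL.ne']
      exact hcoord b)
    (by
      apply le_of_mul_le_mul_right _ hL
      rw [hsiz d, div_mul_cancel₀ _ hL.ne']
      exact hcoord d)
  -- membership in a coordinate
  have hmem : ∀ q ∈ S, ∀ t, iv v q = t → q ∈ (coord v t).primeFactors := by
    intro q hq t ht
    have := iv_mem v hv q hq
    rwa [ht] at this
  rcases key with h | h | h
  · left
    obtain ⟨j, k, l, n, Y, D, hjk, hjl, hkl, hn1, hnE, hYS, hDS, hY, hD, hb1, hb2⟩ := h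
    have hYj : Y ⊆ (coord v j).primeFactors := fun q hq => hmem q (hYS hq) j (hY q hq).1
    have hDk : D ⊆ (coord v k).primeFactors := fun q hq => hmem q (hDS hq) k (hD q hq)
    obtain ⟨B, hB, hBp⟩ := quot (coord v j) (hcp j).ne' Y hYj
    obtain ⟨G, hG, _⟩ := quot (coord v k) (hcp k).ne' D hDk
    have hYn : ∏ q ∈ Y, q ^ (coord v j).factorization q = (∏ q ∈ Y, q) ^ n := by
      rw [← Finset.prod_pow]
      apply Finset.prod_congr rfl
      intro q hq
      rw [← ev_eq v hv q (hSp q (hYS hq)) j (hY q hq).1, (hY q hq).2]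
    have hMpf : (∏ q ∈ D, q ^ (coord v k).factorization q).primeFactors = D := by
      apply pfp
      · intro q hq; exact hSp q (hDS hq)
      · intro q hq
        rw [← ev_eq v hv q (hSp q (hDS hq)) k (hD q hq)]
        exact ev_pos v hv q (hDS hq)
    have hxpos : (0 : ℝ) < ((∏ q ∈ Y, q : ℕ) : ℝ) := by
      exact_mod_cast Finset.prod_pos (fun q hq => (hSp q (hYS hq)).pos)
    have hMpos := prod_pow_pos D (fun q hq => hSp q (hDS hq)) (fun q => (coord v k).factorization q)
    have hlogx : Real.log ((∏ q ∈ Y, q : ℕ) : ℝ) = LK Y := LK_log Y fun q hq => hSp q (hYS hq)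
    have hlogM : Real.log ((∏ q ∈ D, q ^ (coord v k).factorization q : ℕ) : ℝ) =
        (∑ q ∈ D, (ev v q : ℝ) * c q) * Real.log X := by
      rw [prod_pow_log D (fun q hq => hSp q (hDS hq)), Finset.sum_mul]
      apply Finset.sum_congr rfl
      intro q hq
      rw [mul_assoc, hcL' q, ← ev_eq v hv q (hSp q (hDS hq)) k (hD q hq)]
    have h1 := hcst l
    have h2 := hcst j
    have h3 := hsumc Y
    have h4 := hsumc D
    have hlr : Real.log ((rad (coord v l) : ℝ) * rad B *
        rad (∏ q ∈ D, q ^ (coord v k).factorization q)) =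
        LK (coord v l).primeFactors + (LK (coord v j).primeFactors - LK Y) + LK D := by
      rw [Real.log_mul (mul_pos (rad_pos _) (rad_pos _)).ne' (rad_pos _).ne',
        Real.log_mul (rad_pos _).ne' (rad_pos _).ne', log_rad, log_rad, log_rad, hMpf, hBp,
        LK_sdiff _ _ hYj]
    have hpp : (0 : ℝ) < (rad (coord v l) : ℝ) * rad B *
        rad (∏ q ∈ D, q ^ (coord v k).factorization q) :=
      mul_pos (mul_pos (rad_pos _) (rad_pos _)) (rad_pos _)
    refine ⟨j, k, l, n, ∏ q ∈ Y, q, B, ∏ q ∈ D, q ^ (coord v k).factorization q, hjk, hjl, hkl,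
      hn1, hnE, ?_, ?_, ?_, ?_⟩
    · rw [← hYn]; exact hB
    · exact ⟨G, by rw [mul_comm]; exact hG⟩
    · apply le_rp X hX1 _ _ hpp
      rw [hlr]
      have h5 := mul_le_mul_of_nonneg_right hb1 hL.le
      have h6 : (cst S c (iv v) l + (cst S c (iv v) j - ∑ q ∈ Y, c q) + ∑ q ∈ D, c q) *
          Real.log X = LK (coord v l).primeFactors + (LK (coord v j).primeFactors - LK Y) +
            LK D := by
        rw [← h1, ← h2, ← h3, ← h4]; ring
      rw [h6] at h5
      refine h5.trans ?_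
      apply mul_le_mul_of_nonneg_right _ hL.le
      linarith
    · rw [← Real.exp_log (mul_pos hpp hxpos), ← Real.exp_log hMpos,
        Real.rpow_def_of_pos (by linarith), ← Real.exp_add]
      apply Real.exp_le_exp.mpr
      rw [Real.log_mul hpp.ne' hxpos.ne', hlr, hlogx, hlogM]
      have h5 := mul_le_mul_of_nonneg_right hb2 hL.le
      have h6 : (cst S c (iv v) l + (cst S c (iv v) j - ∑ q ∈ Y, c q) + ∑ q ∈ D, c q +
          (∑ q ∈ Y, c q - ∑ q ∈ D, (ev v q : ℝ) * c q)) * Real.log X =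
          LK (coord v l).primeFactors + (LK (coord v j).primeFactors - LK Y) + LK D + LK Y -
            (∑ q ∈ D, (ev v q : ℝ) * c q) * Real.log X := by
        rw [← h1, ← h2, ← h3, ← h4]; ring
      rw [h6] at h5
      have h7 : (2 / 3 - c1) * Real.log X ≤ Real.log X * (2 / 3 - c1 / 2) := by
        nlinarith
      linarith
  · right; left
    obtain ⟨j, k, l, n, Y, x, q, r, hjk, hjl, hkl, hn1, hnE, hYS, hY, hxS, hxY, hxj, hxE, hqS,
      hql, hqE, hrS, hrk, hr2, hxr, hqr, hYr, hb1⟩ := h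
    have hYj : insert x Y ⊆ (coord v j).primeFactors := by
      intro p hp
      rcases Finset.mem_insert.mp hp with h | h
      · rw [h]; exact hmem x hxS j hxj
      · exact hmem p (hYS h) j (hY p h).1
    have hql' : {q} ⊆ (coord v l).primeFactors := by
      intro p hp
      rw [Finset.mem_singleton.mp hp]; exact hmem q hqS l hql
    obtain ⟨A0, hA, hAp⟩ := quot (coord v j) (hcp j).ne' (insert x Y) hYj
    obtain ⟨B, hB, hBp⟩ := quot (coord v l) (hcp l).ne' {q} hql'
    rw [Finset.prod_insert hxY, ← ev_eq v hv x (hSp x hxS) j hxj] at hA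
    rw [Finset.prod_singleton, ← ev_eq v hv q (hSp q hqS) l hql] at hB
    have hYn : ∏ q ∈ Y, q ^ (coord v j).factorization q = (∏ q ∈ Y, q) ^ n := by
      rw [← Finset.prod_pow]
      apply Finset.prod_congr rfl
      intro q hq
      rw [← ev_eq v hv q (hSp q (hYS hq)) j (hY q hq).1, (hY q hq).2]
    rw [hYn] at hA
    have hpr := hSp r hrS
    have hpx := hSp x hxS
    have hpq := hSp q hqS
    have hrpos : (0 : ℝ) < (r : ℝ) := by exact_mod_cast hpr.pos
    have hxpos : (0 : ℝ) < (x : ℝ) := by exact_mod_cast hpx.pos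
    have hqpos : (0 : ℝ) < (q : ℝ) := by exact_mod_cast hpq.pos
    have hypos : (0 : ℝ) < ((∏ q ∈ Y, q : ℕ) : ℝ) := by
      exact_mod_cast Finset.prod_pos (fun q hq => (hSp q (hYS hq)).pos)
    have hlogy : Real.log ((∏ q ∈ Y, q : ℕ) : ℝ) = LK Y := LK_log Y fun q hq => hSp q (hYS hq)
    have hsumY := hsumc Y
    have hsq : ∀ u : ℕ, (0 : ℝ) < u → Real.log (u : ℝ) ≤ 2 * Real.log (r : ℝ) → u ≤ r ^ 2 := by
      intro u hu h
      have h1 : (u : ℝ) ≤ (r : ℝ) ^ 2 := by
        rw [← Real.log_le_log_iff hu (by positivity), Real.log_pow]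
        exact_mod_cast h
      exact_mod_cast h1
    refine ⟨j, k, l, n, ev v x, ev v q, ∏ q ∈ Y, q, x, q, r, A0, B, hjk, hjl, hkl, hn1, hnE,
      ev_pos v hv x hxS, hxE, ev_pos v hv q hqS, hqE, ?_, hB, hpr, ?_, hpx, ?_, ?_, ?_, ?_⟩
    · rw [hA]; ring
    · exact sq_dvd v hv r hrS k hrk hr2
    · have h1 : x ≤ r := by
        have h2 : c x * Real.log X ≤ c r * Real.log X := mul_le_mul_of_nonneg_right hxr hL.le
        rw [hcL', hcL', Real.log_le_log_iff hxpos hrpos] at h2
        exact_mod_cast h2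
      have h3 : x ≠ r := by
        rintro rfl
        exact hjk (hxj.symm.trans hrk)
      omega
    · apply hsq _ hypos
      rw [hlogy, ← hsumY, ← hcL' r, ← mul_assoc]
      exact mul_le_mul_of_nonneg_right hYr hL.le
    · apply hsq _ hqpos
      rw [← hcL' q, ← hcL' r, ← mul_assoc]
      exact mul_le_mul_of_nonneg_right hqr hL.le
    · set y : ℝ := ((∏ q ∈ Y, q : ℕ) : ℝ) with hy
      have hsqrt : Real.sqrt (q * (y * (y + x))) ≤ Real.sqrt (2 * (q * (y * max y x))) := by
        apply Real.sqrt_le_sqrt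
        have h1 : y + x ≤ 2 * max y x := by
          have := le_max_left y (x : ℝ)
          have := le_max_right y (x : ℝ)
          linarith
        have h2 : (q : ℝ) * (y * (y + x)) ≤ q * (y * (2 * max y x)) := by gcongr
        linarith
      have hmpos : 0 < max y (x : ℝ) := lt_of_lt_of_le hypos (le_max_left _ _)
      have hup : (0 : ℝ) < 2 * (q * (y * max y x)) := by positivity
      have hlogmax : Real.log (max y (x : ℝ)) ≤ max (∑ p ∈ Y, c p) (c x) * Real.log X := by
        rcases max_choice y (x : ℝ) with h | h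
        · rw [h, hlogy, ← hsumY]
          exact mul_le_mul_of_nonneg_right (le_max_left _ _) hL.le
        · rw [h, ← hcL' x]
          exact mul_le_mul_of_nonneg_right (le_max_right _ _) hL.le
      have hpp : (0 : ℝ) < (rad A0 : ℝ) * rad B * r *
          Real.sqrt (2 * (q * (y * max y x))) := by
        have := Real.sqrt_pos.mpr hup
        have := rad_pos A0
        have := rad_pos B
        positivity
      have hstep : (rad A0 : ℝ) * rad B * r * Real.sqrt (q * (y * (y + x))) ≤
          (rad A0 : ℝ) * rad B * r * Real.sqrt (2 * (q * (y * max y x))) := by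
        apply mul_le_mul_of_nonneg_left hsqrt
        have := rad_pos A0
        have := rad_pos B
        positivity
      refine hstep.trans ?_
      apply le_rp X hX1 _ _ hpp
      rw [Real.log_mul (by have := rad_pos A0; have := rad_pos B; positivity)
        (Real.sqrt_pos.mpr hup).ne', Real.log_mul (mul_pos (rad_pos _) (rad_pos _)).ne' hrpos.ne',
        Real.log_mul (rad_pos _).ne' (rad_pos _).ne', log_rad, log_rad, hAp, hBp,
        LK_sdiff _ _ hYj, LK_sdiff _ _ hql', Real.log_sqrt hup.le,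
        Real.log_mul (by norm_num) (by positivity), Real.log_mul hqpos.ne' (by positivity),
        Real.log_mul hypos.ne' hmpos.ne', hlogy, ← hcst j, ← hcst l, ← hsumY, ← hcL' r, ← hcL' q]
      have h8 : LK (insert x Y) = c x * Real.log X + (∑ p ∈ Y, c p) * Real.log X := by
        unfold LK
        rw [Finset.sum_insert hxY, hcL' x]
        rw [hsumY]; rfl
      have h9 : LK {q} = c q * Real.log X := by
        unfold LK
        rw [Finset.sum_singleton, hcL' q]
      rw [h8, h9]
      have h5 := mul_le_mul_of_nonneg_right hb1 hL.le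
      nlinarith
  · right; right
    obtain ⟨y, z, hyS, hzS, hy2, hzb, hyz, hey, hy1, hy1', hz1, hz1', hya, hzb', hdd⟩ := h
    have hyj : {y} ⊆ (coord v 2).primeFactors := by
      intro p hp
      rw [Finset.mem_singleton.mp hp]; exact hmem y hyS 2 hy2
    have hzj : {z} ⊆ (coord v b).primeFactors := by
      intro p hp
      rw [Finset.mem_singleton.mp hp]; exact hmem z hzS b hzb
    obtain ⟨B, hB, _⟩ := quot (coord v 2) (hcp 2).ne' {y} hyj
    obtain ⟨G, hG, _⟩ := quot (coord v b) (hcp b).ne' {z} hzj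
    rw [Finset.prod_singleton, ← ev_eq v hv y (hSp y hyS) 2 hy2] at hB
    rw [Finset.prod_singleton, ← ev_eq v hv z (hSp z hzS) b hzb] at hG
    have hypos : (0 : ℝ) < (y : ℝ) := by exact_mod_cast (hSp y hyS).pos
    have hzpos : (0 : ℝ) < (z : ℝ) := by exact_mod_cast (hSp z hzS).pos
    have hBpos : (0 : ℝ) < (B : ℝ) := by
      have : 0 < B := Nat.pos_of_ne_zero (by
        rintro rfl
        have := hcp 2
        rw [hB] at this; simp at this)
      exact_mod_cast this
    have hGpos : (0 : ℝ) < (G : ℝ) := by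
      have : 0 < G := Nat.pos_of_ne_zero (by
        rintro rfl
        have := hcp b
        rw [hG] at this; simp at this)
      exact_mod_cast this
    have hlogB : Real.log (B : ℝ) = Real.log (coord v 2 : ℝ) - (ev v y : ℝ) * Real.log y := by
      have h1 : (coord v 2 : ℝ) = (B : ℝ) * (y : ℝ) ^ ev v y := by exact_mod_cast hB
      rw [h1, Real.log_mul hBpos.ne' (by positivity), Real.log_pow]; ring
    have hlogG : Real.log (G : ℝ) = Real.log (coord v b : ℝ) - (ev v z : ℝ) * Real.log z := by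
      have h1 : (coord v b : ℝ) = (G : ℝ) * (z : ℝ) ^ ev v z := by exact_mod_cast hG
      rw [h1, Real.log_mul hGpos.ne' (by positivity), Real.log_pow]; ring
    have hlo : ∀ u : ℕ, (0 : ℝ) < u → 1 / 3 - τ ≤ c u → X ^ (1 / 3 - τ) ≤ (u : ℝ) := by
      intro u hu h
      apply rp_le X hX1 _ _ hu
      rw [← hcL' u]
      exact mul_le_mul_of_nonneg_right h hL.le
    have hup : ∀ u : ℕ, (0 : ℝ) < u → c u ≤ 1 / 3 + τ → (u : ℝ) ≤ X ^ (1 / 3 + τ) := by
      intro u hu h
      apply le_rp X hX1 _ _ hu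
      rw [← hcL' u]
      exact mul_le_mul_of_nonneg_right h hL.le
    refine ⟨2, b, d, ev v y, B, G, y, z, hb2, hd2, hbd, hd2.symm, hey, hB, by rw [hyz]; exact hG,
      ?_, ?_, hSp y hyS, hSp z hzS, hlo y hypos hy1, hup y hypos hy1', hlo z hzpos hz1,
      hup z hzpos hz1', ?_⟩
    · apply le_rp X hX1 _ _ hBpos
      rw [hlogB, ← hsiz 2, ← hcL' y]
      have h5 := mul_le_mul_of_nonneg_right hya hL.le
      linarith
    · apply le_rp X hX1 _ _ hGpos
      rw [hlogG, ← hsiz b, ← hcL' z]
      have h5 := mul_le_mul_of_nonneg_right hzb' hL.le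
      linarith
    · rcases hdd with h | ⟨q, hqS, hqd, hq2, hq3, hq4⟩
      · left
        apply le_rp X hX1 _ _ (by exact_mod_cast hcp d)
        rw [← hsiz d]
        exact mul_le_mul_of_nonneg_right h hL.le
      · right
        have hqpos : (0 : ℝ) < (q : ℝ) := by exact_mod_cast (hSp q hqS).pos
        exact ⟨q, hSp q hqS, sq_dvd v hv q hqS d hqd hq2, hlo q hqpos hq3, hup q hqpos hq4⟩

end Pool.MED
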